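import Pool.Agent.Helper32.KD2.Asm2
import Pool.Agent.Helper37.KD.St.DET

/-! KD Part II: assembly, counting and the growth lemma (helper32; sped up by helper33) -/

namespace KD.II

open Finset MeasureTheory

open Classical in
/-- lattice points in the union of the boxes -/
noncomputable def AA {d N : ℕ} [NeZero N] (κ h : ℝ) {ι : Type} (tb : ι → ℝ) (xb vb : ι → Vd d)
    (α ξ β : ℝ) (n : ℕ) : Finset (GG d N) :=
  univ.filter (fun z => ∃ i, ((-(n * κ) : ℝ), px κ h z, pv h z) ∈ KBox (tb i) (xb i) (vb i) α ξ β)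

theorem mem_AA {d N : ℕ} [NeZero N] {κ h : ℝ} {ι : Type} {tb : ι → ℝ} {xb vb : ι → Vd d}
    {α ξ β : ℝ} {n : ℕ} {z : GG d N} : z ∈ AA κ h tb xb vb α ξ β n ↔
      ∃ i, ((-(n * κ) : ℝ), px κ h z, pv h z) ∈ KBox (tb i) (xb i) (vb i) α ξ β := by
  unfold AA
  simp

theorem count_total {d N : ℕ} [NeZero N] {κ h : ℝ} (hκ : 0 < κ) (hh : 0 < h) {ι : Type}
    [Fintype ι] (tb : ι → ℝ) (xb vb : ι → Vd d) {α ξ β : ℝ} (hα : κ ≤ α) (hξ : κ * h ≤ ξ)
    (hβ : h ≤ β) (T : ℕ) :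
    ∑ n ∈ range T, ((AA (N := N) κ h tb xb vb α ξ β n).card : ℝ) ≤
      2 ^ (2 * d + 1) * (Fintype.card ι * (α * ξ ^ d * β ^ d)) / (κ * h ^ d * (κ * h) ^ d) := by
  classical
  have hα0 : 0 < α := hκ.trans_le hα
  have hξ0 : 0 < ξ := (mul_pos hκ hh).trans_le hξ
  have hβ0 : 0 < β := hh.trans_le hβ
  have h1 : ∑ n ∈ range T, ((AA (N := N) κ h tb xb vb α ξ β n).card : ℝ) ≤
      ∑ n ∈ range T, ∑ i, ((univ.filter (fun z : GG d N =>
        ((-(n * κ) : ℝ), px κ h z, pv h z) ∈ KBox (tb i) (xb i) (vb i) α ξ β)).card : ℝ) := by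
    refine Finset.sum_le_sum (fun n _ => ?_)
    rw [← Nat.cast_sum]
    have : AA (N := N) κ h tb xb vb α ξ β n ⊆ univ.biUnion (fun i => univ.filter (fun z : GG d N =>
        ((-(n * κ) : ℝ), px κ h z, pv h z) ∈ KBox (tb i) (xb i) (vb i) α ξ β)) := by
      intro z hz
      simpa [AA] using hz
    exact_mod_cast (Finset.card_le_card this).trans Finset.card_biUnion_le
  refine h1.trans ?_
  rw [Finset.sum_comm]
  have h2 : ∀ i : ι, ∑ n ∈ range T, ((univ.filter (fun z : GG d N =>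
        ((-(n * κ) : ℝ), px κ h z, pv h z) ∈ KBox (tb i) (xb i) (vb i) α ξ β)).card : ℝ) ≤
      (α / κ + 1) * (β / h + 1) ^ d * (ξ / (κ * h) + 1) ^ d := fun i =>
    count_box κ h hκ hh (tb i) (xb i) (vb i) α ξ β hα0.le hξ0.le hβ0.le T
  refine (Finset.sum_le_sum (fun i _ => h2 i)).trans ?_
  rw [Finset.sum_const, Finset.card_univ, nsmul_eq_mul]
  have e1 : α / κ + 1 ≤ 2 * (α / κ) := by
    have : 1 ≤ α / κ := by rwa [one_le_div hκ]
    linarith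
  have e2 : (β / h + 1) ^ d ≤ (2 * (β / h)) ^ d := by
    have : 1 ≤ β / h := by rwa [one_le_div hh]
    exact pow_le_pow_left₀ (by positivity) (by linarith) d
  have e3 : (ξ / (κ * h) + 1) ^ d ≤ (2 * (ξ / (κ * h))) ^ d := by
    have : 1 ≤ ξ / (κ * h) := by rwa [one_le_div (mul_pos hκ hh)]
    exact pow_le_pow_left₀ (by positivity) (by linarith) d
  have e4 : (α / κ + 1) * (β / h + 1) ^ d * (ξ / (κ * h) + 1) ^ d ≤
      (2 * (α / κ)) * (2 * (β / h)) ^ d * (2 * (ξ / (κ * h))) ^ d := by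
    gcongr
  refine (mul_le_mul_of_nonneg_left e4 (by positivity)).trans (le_of_eq ?_)
  rw [mul_pow, mul_pow, div_pow, div_pow]
  field_simp
  ring

/-- the hypothesis of `det_occupation` -/
theorem det_hyp {d : ℕ} {s M ε Cs : ℝ} (hM : 1 ≤ M) (hε : 0 < ε) (hCs : 0 < Cs) (K : ℕ)
    (X δ0 π : ℝ) (hπ : 0 < π) (hX : X ≤ 2 ^ (2 * d + 1) * δ0 / (kk s ε K * hh K ^ d * (kk s ε K * hh K) ^ d))
    (hδ : δ0 * (Cs * (2 : ℝ) ^ (16 * s) * 2 ^ (2 * d + 1) * (256 ^ d *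
      (256 * (2 : ℝ) ^ (16 * s)) ^ d)) ≤ π) :
    Cs * (ε / tim s K) * X ≤ π * (2 ^ K) ^ d * (Rad s M ε K) ^ d := by
  have hk := kk_pos (s := s) hε K
  have hhp := hh_pos K
  have h2 : (0:ℝ) < 2 ^ (16 * s) := Real.rpow_pos_of_pos two_pos _
  rw [tim_eq, two_pow_hh, Rad_eq hε]
  set κ := kk s ε K with hκ
  set h := hh K with hhd
  set q := (2 : ℝ) ^ (16 * s) with hq
  have h3 : Cs * (κ * q) * X ≤ Cs * (κ * q) *
      (2 ^ (2 * d + 1) * δ0 / (κ * h ^ d * (κ * h) ^ d)) :=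
    mul_le_mul_of_nonneg_left hX (by positivity)
  refine h3.trans ?_
  have h4 : Cs * (κ * q) * (2 ^ (2 * d + 1) * δ0 / (κ * h ^ d * (κ * h) ^ d)) =
      (Cs * q * 2 ^ (2 * d + 1) * δ0) * (1 / (h ^ d * (κ * h) ^ d)) := by
    field_simp
  have h5 : π * (1 / (256 * h)) ^ d * (M / (256 * q * (κ * h))) ^ d =
      (π * M ^ d / (256 ^ d * (256 * q) ^ d)) * (1 / (h ^ d * (κ * h) ^ d)) := by
    rw [div_pow, div_pow, mul_pow, mul_pow (256 * q), one_pow]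
    field_simp
  rw [h4, h5]
  refine mul_le_mul_of_nonneg_right ?_ (by positivity)
  rw [le_div_iff₀ (by positivity)]
  have h6 : (1:ℝ) ≤ M ^ d := one_le_pow₀ hM
  calc Cs * q * 2 ^ (2 * d + 1) * δ0 * (256 ^ d * (256 * q) ^ d)
      = δ0 * (Cs * q * 2 ^ (2 * d + 1) * (256 ^ d * (256 * q) ^ d)) := by ring
    _ ≤ π := hδ
    _ = π * 1 := (mul_one _).symm
    _ ≤ π * M ^ d := mul_le_mul_of_nonneg_left h6 hπ.le

theorem exists_t0 {C k q : ℝ} (hC : 0 ≤ C) (hk : 0 ≤ k) (hq1 : 1 ≤ q) :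
    ∃ t0 : ℝ, 0 < t0 ∧ t0 ≤ 1 / 2 ∧ t0 * q ≤ 1 ∧ t0 * C ≤ 1 / 16 ∧ t0 * k ≤ 1 / 16 := by
  have hq0 : 0 < q := by linarith
  refine ⟨1 / (16 * (1 + C) * (1 + k) * q), by positivity, ?_, ?_, ?_, ?_⟩
  · rw [div_le_div_iff₀ (by positivity) (by norm_num)]
    have : 1 ≤ (1 + C) * (1 + k) * q := by
      have a1 : 1 ≤ (1 + C) * (1 + k) := by nlinarith
      nlinarith
    linarith
  · rw [div_mul_eq_mul_div, div_le_one (by positivity), one_mul]
    have a1 : 1 ≤ (1 + C) * (1 + k) := by nlinarith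
    nlinarith
  · rw [div_mul_eq_mul_div, one_mul, div_le_div_iff₀ (by positivity) (by norm_num)]
    have a1 : 1 ≤ (1 + k) * q := by nlinarith
    have a2 : C ≤ (1 + C) * ((1 + k) * q) := by nlinarith
    linarith
  · rw [div_mul_eq_mul_div, one_mul, div_le_div_iff₀ (by positivity) (by norm_num)]
    have a1 : 1 ≤ (1 + C) * q := by nlinarith
    have a2 : k ≤ (1 + k) * ((1 + C) * q) := by nlinarith
    linarith

theorem exists_K {β b M Cs : ℝ} (hβ : 0 < β) (hb : 0 < b) (hM : 0 < M) (hCs : 0 < Cs) (K1 : ℕ) :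
    ∃ K : ℕ, K1 ≤ K ∧ hh K ≤ β ∧ 2 * Cs * M * hh K ≤ b ∧ 2 * Cs * M * hh K ≤ 1 / 4 := by
  obtain ⟨r, hr0, hr1, hr2, hr3⟩ : ∃ r : ℝ, 0 < r ∧ r ≤ β ∧ 2 * Cs * M * r ≤ b ∧
      2 * Cs * M * r ≤ 1 / 4 := by
    have hCM : 0 < 2 * Cs * M := by positivity
    refine ⟨min β (min (b / (2 * Cs * M)) (1 / 4 / (2 * Cs * M))), by positivity,
      min_le_left _ _, ?_, ?_⟩
    · rw [← le_div_iff₀' hCM]
      exact (min_le_right _ _).trans (min_le_left _ _)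
    · rw [← le_div_iff₀' hCM]
      exact (min_le_right _ _).trans (min_le_right _ _)
  obtain ⟨K2, hK2⟩ := exists_pow_lt_of_lt_one hr0 (by norm_num : (1 / 2 : ℝ) < 1)
  have hle : hh (max K1 K2) ≤ r := by
    unfold hh
    refine le_trans ?_ hK2.le
    exact pow_le_pow_of_le_one (by norm_num) (by norm_num) (by omega)
  have hCM : 0 ≤ 2 * Cs * M := by positivity
  exact ⟨max K1 K2, le_max_left _ _, hle.trans hr1,
    (mul_le_mul_of_nonneg_left hle hCM).trans hr2, (mul_le_mul_of_nonneg_left hle hCM).trans hr3⟩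

theorem exists_eps {ε1 ε2 LR α ξ t0 : ℝ} (h1 : 0 < ε1) (h2 : 0 < ε2) (hLR : 0 < LR) (hα : 0 < α)
    (hξ : 0 < ξ) (ht0 : 0 < t0) : ∃ ε : ℝ, 0 < ε ∧ ε ≤ ε1 ∧ ε ≤ ε2 ∧ ε ≤ 1 ∧
      ε * LR ≤ 1 ∧ ε ≤ α ∧ ε ≤ ξ ∧ ε ≤ t0 / 2 := by
  refine ⟨min ε1 (min ε2 (min 1 (min (1 / LR) (min α (min ξ (t0 / 2)))))),
    by positivity, min_le_left _ _, (min_le_right _ _).trans (min_le_left _ _),
    (min_le_right _ _).trans ((min_le_right _ _).trans (min_le_left _ _)), ?_, ?_, ?_, ?_⟩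
  · rw [← le_div_iff₀ hLR]
    exact (min_le_right _ _).trans ((min_le_right _ _).trans ((min_le_right _ _).trans
      (min_le_left _ _)))
  · exact (min_le_right _ _).trans ((min_le_right _ _).trans ((min_le_right _ _).trans
      ((min_le_right _ _).trans (min_le_left _ _))))
  · exact (min_le_right _ _).trans ((min_le_right _ _).trans ((min_le_right _ _).trans
      ((min_le_right _ _).trans ((min_le_right _ _).trans (min_le_left _ _)))))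
  · exact (min_le_right _ _).trans ((min_le_right _ _).trans ((min_le_right _ _).trans
      ((min_le_right _ _).trans ((min_le_right _ _).trans (min_le_right _ _)))))

theorem exists_N {N0 K : ℕ} {κ h M ε Cs : ℝ} (hκ : 0 < κ) (hhp : 0 < h) (hε : 0 < ε)
    (hM : 0 < M) (hCs : 0 < Cs) : ∃ (N : ℕ) (_ : NeZero N), N0 ≤ N ∧ Odd N ∧
      2 ^ (K + 6) ≤ N ∧ 1 / (κ * h) + 1 / h + 2 ^ (K + 6) < (N : ℝ) ∧
      1 / (κ * h) + 2 * (2 * Cs * M / ε) < (N : ℝ) ∧ 1 / h + 2 * (2 * Cs) < (N : ℝ) := by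
  obtain ⟨m, hm⟩ := exists_nat_gt (N0 + (1 / (κ * h) + 1 / h + 2 ^ (K + 6)) +
    (1 / (κ * h) + 2 * (2 * Cs * M / ε)) + (1 / h + 2 * (2 * Cs)))
  have q1 : 0 < 1 / (κ * h) := by positivity
  have q2 : 0 < 1 / h := by positivity
  have q3 : 0 < 2 * (2 * Cs * M / ε) := by positivity
  have q4 : (0:ℝ) < 2 ^ (K + 6) := by positivity
  have q5 : (0:ℝ) ≤ N0 := Nat.cast_nonneg _
  have q6 : (0:ℝ) ≤ m := Nat.cast_nonneg _
  refine ⟨2 * m + 1, ⟨by omega⟩, ?_, ⟨m, rfl⟩, ?_, ?_, ?_, ?_⟩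
  · have : (N0 : ℝ) < m := by linarith
    have : N0 < m := by exact_mod_cast this
    omega
  · have : ((2 ^ (K + 6) : ℕ) : ℝ) < m := by push_cast; linarith only [hCs, hm, q1, q2, q3]
    have : 2 ^ (K + 6) < m := by exact_mod_cast this
    omega
  · push_cast; linarith only [hCs, hm, q1, q2, q3, q4]
  · push_cast; linarith
  · push_cast; linarith

/-- the noise shift moves a bad point of the window to a covered lattice point -/
theorem shift_cov {d : ℕ} {N : ℕ} [NeZero N] {f : ℝ → Vd d → Vd d → ℝ} {κ h M ε Cs b t0 : ℝ}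
    (hκ : 0 < κ) (hhp : 0 < h) (hε : 0 < ε) (hM : 1 ≤ M) (hCs : 0 < Cs) (hb : 0 < b)
    (hκε : κ ≤ ε) (hKb : 2 * Cs * M * h ≤ b) (hK4 : 2 * Cs * M * h ≤ 1 / 4)
    (hN4 : 1 / (κ * h) + 2 * (2 * Cs * M / ε) < (N : ℝ)) (hN5 : 1 / h + 2 * (2 * Cs) < (N : ℝ))
    (huc : ∀ (t : ℝ) (x v : Vd d) (t' : ℝ) (x' v' : Vd d), (t, x, v) ∈ Q1 d → (t', x', v') ∈ Q1 d →
      |t - t'| ≤ b → ‖x - x'‖ ≤ b → ‖v - v'‖ ≤ b → |f t x v - f t' x' v'| ≤ 1 / 64)
    {T : ℕ} (hT1 : (T : ℝ) * κ ≤ t0) (ht1 : t0 ≤ 1 / 2) {n : ℕ} (hn : n < T) {z w : GG d N}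
    (hzw : z ∈ win κ h) (hzf : smp κ h f n z < 1 - 1 / 64)
    (hw : nrm 1 (M / ε) w ≤ 2 * Cs) :
    (-(n * κ), px κ h (z + w), pv h (z + w)) ∈ Q1 d ∧
      f (-(n * κ)) (px κ h (z + w)) (pv h (z + w)) < 1 := by
  have n1x : 0 ≤ n1 w.1 := Finset.sum_nonneg (fun i _ => Nat.cast_nonneg _)
  have n1v : 0 ≤ n1 w.2 := Finset.sum_nonneg (fun i _ => Nat.cast_nonneg _)
  have hMε : 0 < M / ε := by positivity
  unfold nrm at hw
  rw [div_one] at hw
  have w1 : n1 w.1 ≤ 2 * Cs * M / ε := by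
    have : n1 w.1 / (M / ε) ≤ 2 * Cs := by linarith only [hw, n1v]
    rw [div_le_iff₀ hMε] at this
    calc _ ≤ _ := this
      _ = _ := by ring
  have w2 : n1 w.2 ≤ 2 * Cs := by
    have : 0 ≤ n1 w.1 / (M / ε) := by positivity
    linarith only [hw, this]
  obtain ⟨sx, sv⟩ := shift_bound hκ hhp z w hzw (by linarith only [hN4, w1]) (by linarith only [hN5, w2])
  have sx' : κ * h * n1 w.1 ≤ 2 * Cs * M * h := by
    calc κ * h * n1 w.1 ≤ κ * h * (2 * Cs * M / ε) := mul_le_mul_of_nonneg_left w1 (by positivity)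
      _ = (κ / ε) * (2 * Cs * M * h) := by ring
      _ ≤ 1 * (2 * Cs * M * h) := by
          refine mul_le_mul_of_nonneg_right ?_ (by positivity)
          rwa [div_le_one hε]
      _ = _ := one_mul _
  have sv' : h * n1 w.2 ≤ 2 * Cs * M * h := by
    calc h * n1 w.2 ≤ h * (2 * Cs) := mul_le_mul_of_nonneg_left w2 hhp.le
      _ = 2 * Cs * h * 1 := by ring
      _ ≤ 2 * Cs * h * M := mul_le_mul_of_nonneg_left hM (by positivity)
      _ = _ := by ring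
  have hnκ : (n : ℝ) * κ ≤ 1 / 2 := by
    have : (n : ℝ) * κ ≤ T * κ := mul_le_mul_of_nonneg_right (by exact_mod_cast hn.le) hκ.le
    linarith only [hT1, ht1, this]
  have hnκ0 : 0 ≤ (n : ℝ) * κ := by positivity
  have hzQ : (-(n * κ), px κ h z, pv h z) ∈ Q1 d := by
    refine ⟨?_, ?_, ?_, ?_⟩
    · show -1 ≤ -((n : ℝ) * κ); linarith only [hnκ]
    · show -((n : ℝ) * κ) ≤ 0; linarith only [hnκ0]
    · show ‖px κ h z‖ ≤ 1; linarith only [hzw, hzw.1]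
    · show ‖pv h z‖ ≤ 1; linarith only [hzw, hzw.2]
  have hzwQ : (-(n * κ), px κ h (z + w), pv h (z + w)) ∈ Q1 d := by
    refine ⟨?_, ?_, ?_, ?_⟩
    · show -1 ≤ -((n : ℝ) * κ); linarith only [hnκ]
    · show -((n : ℝ) * κ) ≤ 0; linarith only [hnκ0]
    · show ‖px κ h (z + w)‖ ≤ 1
      have := norm_le_norm_add_norm_sub' (px κ h (z + w)) (px κ h z)
      linarith only [hK4, sx, sx', this, hzw, hzw.1]
    · show ‖pv h (z + w)‖ ≤ 1
      have := norm_le_norm_add_norm_sub' (pv h (z + w)) (pv h z)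
      linarith only [hK4, sv, sv', this, hzw, hzw.2]
  have hfe := huc _ _ _ _ _ _ hzwQ hzQ (by simpa using hb.le) (by linarith only [hKb, sx, sx']) (by linarith)
  refine ⟨hzwQ, ?_⟩
  have h1 := (abs_le.1 hfe).2
  unfold smp at hzf
  linarith only [hzf, h1]

theorem last_num {F t0 E : ℝ} (hE : E ≤ 16 / 15) (ht0 : 0 < t0) (ht1 : t0 ≤ 1 / 2) (hF : 0 ≤ F)
    (hfin : (1 - 1 / 64) * (7 / 8) ≤ E * (F + t0 * (1 / 16 + 1 / 64))) : 1 / 2 ≤ F := by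
  have h9 : E * (F + t0 * (1 / 16 + 1 / 64)) ≤ 16 / 15 * (F + t0 * (1 / 16 + 1 / 64)) :=
    mul_le_mul_of_nonneg_right hE (by positivity)
  linarith

theorem exp_num : Real.exp (1 / 16) ≤ 16 / 15 := by
  have := Real.add_one_le_exp (-(1 / 16) : ℝ)
  rw [Real.exp_neg] at this
  have hp := Real.exp_pos (1 / 16 : ℝ)
  have h15 : (15 / 16 : ℝ) ≤ (Real.exp (1 / 16))⁻¹ := by linarith only [this]
  rw [le_inv_comm₀ (by norm_num) hp] at h15
  norm_num at h15 ⊢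
  exact h15

theorem occ_num {t0 q Cs Lg κ Tκ T S : ℝ} (ht0 : 0 < t0) (hq0 : 0 < q)
    (hκ : 0 < κ) (hLg : Lg = 64 * Cs / (t0 * q) + 1) (hLg0 : 0 < Lg) (hTκ : Tκ = T * κ)
    (hT2 : t0 / 2 ≤ Tκ) (hS : κ * q * S ≤ Cs / Lg) : 2 * S ≤ T * (1 / 16) := by
  have g2 : S ≤ Cs / Lg / (κ * q) := by
    rw [le_div_iff₀ (by positivity), mul_comm]
    exact hS
  have g3 : 2 * (Cs / Lg / (κ * q)) ≤ T * (1 / 16) := by
    rw [div_div, ← mul_div_assoc, div_le_iff₀ (by positivity)]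
    have g4 : 64 * Cs ≤ t0 * q * Lg := by
      rw [hLg]
      have : t0 * q * (64 * Cs / (t0 * q) + 1) = 64 * Cs + t0 * q := by field_simp
      rw [this]
      have : 0 < t0 * q := by positivity
      linarith only [this]
    have g5 : T * (1 / 16) * (Lg * (κ * q)) = Tκ * (q * Lg) / 16 := by rw [hTκ]; ring
    rw [g5]
    have g6 : t0 / 2 * (q * Lg) ≤ Tκ * (q * Lg) :=
      mul_le_mul_of_nonneg_right hT2 (by positivity)
    have g7 : t0 / 2 * (q * Lg) = t0 * q * Lg / 2 := by ring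
    linarith only [g4, g6]
  linarith only [g2, g3]

theorem growth_lemma (d : ℕ) (hd : 1 ≤ d) (s lam Lam M0 : ℝ) (hs : 0 < s) (hs1 : s < 1)
    (hlam : 0 < lam) (hLam : lam ≤ Lam) (hM0 : 0 ≤ M0) :
    ∃ δ0 η0 : ℝ, 0 < δ0 ∧ 0 < η0 ∧
    ∀ (a : ℝ → Vd d → Vd d → Vd d → ℝ) (_ : Kern lam Lam M0 a) (f : ℝ → Vd d → Vd d → ℝ)
      (D : Set (ℝ × Vd d × Vd d)) (_ : Super s η0 a f D) (_ : Q1 d ⊆ D) (_ : ∀ t x v, 0 ≤ f t x v)
      (ι : Type) (_ : Fintype ι) (tb : ι → ℝ) (xb vb : ι → Vd d) (α ξ β : ℝ)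
      (_ : 0 < α) (_ : 0 < ξ) (_ : 0 < β)
      (_ : (Fintype.card ι : ℝ) * (α * ξ ^ d * β ^ d) ≤ δ0)
      (_ : ∀ p ∈ Q1 d, f p.1 p.2.1 p.2.2 < 1 → ∃ i, p ∈ KBox (tb i) (xb i) (vb i) α ξ β),
      1 / 2 ≤ f 0 0 0 := by
  classical
  set c0 : ℝ := (2 : ℝ) ^ (-((d : ℝ) + 2 * s)) with hc0d
  have hc0 : 0 < c0 := Real.rpow_pos_of_pos two_pos _
  have hLam0 : 0 < Lam := hlam.trans_le hLam
  obtain ⟨M, Cs, hM, hCs, hdet⟩ := det_occupation d hd s lam Lam M0 c0 (4 ^ d) hs hs1 hlam hLam hM0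
    hc0 (by positivity)
  obtain ⟨C, hC, hPsi⟩ := Psi_drift d hd s lam Lam M0 (4 ^ d) hs hs1 hlam hLam (by positivity)
  set k := k0 d s Lam with hkd
  have hk : 0 ≤ k := mul_nonneg hLam0.le (setIntegral_nonneg (far_meas _) (fun w _ => kw_nonneg w))
  set q := (2 : ℝ) ^ (16 * s) with hq
  have hq1 : 1 ≤ q := Real.one_le_rpow one_le_two (by positivity)
  have hq0 : 0 < q := by linarith
  -- the time t0
  obtain ⟨t0, ht0, ht1, ht2, ht3, ht4⟩ : ∃ t0 : ℝ, 0 < t0 ∧ t0 ≤ 1 / 2 ∧ t0 * q ≤ 1 ∧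
      t0 * C ≤ 1 / 16 ∧ t0 * k ≤ 1 / 16 := exists_t0 hC hk hq1
  -- the density π
  set Lg : ℝ := 64 * Cs / (t0 * q) + 1 with hLg
  have hLg0 : 0 < Lg := by positivity
  set π : ℝ := Real.exp (-Lg) with hπd
  have hπ0 : 0 < π := Real.exp_pos _
  have hπ1 : π < 1 := by rw [hπd, Real.exp_lt_one_iff]; linarith
  have hlogπ : Real.log (1 / π) = Lg := by
    rw [one_div, Real.log_inv, hπd, Real.log_exp, neg_neg]
  set Q : ℝ := Cs * q * 2 ^ (2 * d + 1) * (256 ^ d * (256 * q) ^ d) with hQd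
  have hQ0 : 0 < Q := by positivity
  refine ⟨π / Q, 1 / 16, by positivity, by norm_num, ?_⟩
  intro a ha f D hsup hQD hnn ι _ tb xb vb α ξ β hα hξ hβ hcard hcov
  obtain ⟨G, Cf, hLoc⟩ := loc_of_super hsup hQD
  obtain ⟨b, hb, huc⟩ := hLoc.uc (1 / 64) (by norm_num)
  obtain ⟨K1, hK1⟩ := one_step d hd s lam Lam hs hs1 hlam hLam (1 / 16) Cf a f G hLoc hnn
    (adm_of_kern ha) (1 / 64) (by norm_num)
  -- the number of scales
  obtain ⟨K, hKK, hKβ, hKb, hK4⟩ : ∃ K : ℕ, K1 ≤ K ∧ hh K ≤ β ∧ 2 * Cs * M * hh K ≤ b ∧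
      2 * Cs * M * hh K ≤ 1 / 4 :=
    exists_K hβ hb (by positivity) hCs K1
  have hhp := hh_pos K
  set h := hh K with hhd
  have hh1 : h ≤ 1 := by
    rw [hhd]; unfold hh
    exact pow_le_one₀ (by norm_num) (by norm_num)
  obtain ⟨ε1, hε1, hone⟩ := hK1 K hKK
  obtain ⟨ε2, hε2, hdet2⟩ := hdet K
  have hgeo : 0 < 1 - (2 : ℝ) ^ (-(2 * s)) := by
    have : (2 : ℝ) ^ (-(2 * s)) < 1 := Real.rpow_lt_one_of_one_lt_of_neg one_lt_two (by linarith only [hs])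
    linarith only [this]
  set Rt : ℝ := 4 ^ d / (1 - (2 : ℝ) ^ (-(2 * s))) with hRt
  have hRt0 : 0 < Rt := by positivity
  -- the time step
  obtain ⟨ε, hε, e1, e2, e3, e4, e5, e6, e7⟩ : ∃ ε : ℝ, 0 < ε ∧ ε ≤ ε1 ∧ ε ≤ ε2 ∧ ε ≤ 1 ∧
      ε * (Lam * Rt) ≤ 1 ∧ ε ≤ α ∧ ε ≤ ξ ∧ ε ≤ t0 / 2 :=
    exists_eps hε1 hε2 (by positivity) hα hξ ht0
  have hκ := kk_pos (s := s) hε K
  set κ := kk s ε K with hκd
  have hκε : κ ≤ ε := by
    rw [hκd]; unfold kk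
    have : h ^ (2 * s) ≤ 1 := Real.rpow_le_one hhp.le hh1 (by positivity)
    exact mul_le_of_le_one_right hε.le this
  -- the size of the torus
  obtain ⟨N0, hN0⟩ := hdet2 ε hε e2
  obtain ⟨N, hNne, hN1, hNodd, hN2, hN3, hN4, hN5⟩ : ∃ (N : ℕ) (_ : NeZero N), N0 ≤ N ∧ Odd N ∧
      2 ^ (K + 6) ≤ N ∧ 1 / (κ * h) + 1 / h + 2 ^ (K + 6) < (N : ℝ) ∧
      1 / (κ * h) + 2 * (2 * Cs * M / ε) < (N : ℝ) ∧ 1 / h + 2 * (2 * Cs) < (N : ℝ) :=
    exists_N hκ hhp hε (by positivity) hCs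
  obtain ⟨q0, hq0nn, hq0s, hq0m, hocc⟩ := hN0 N hN1 hNodd
  obtain ⟨S, hSm, hSneg, hSpi⟩ := exists_sys d hd s hs K N hN2
  have hcoef : ∀ n, S.Coef lam Lam M0 (cof (N := N) s lam κ h (K + 3) a n) := fun n =>
    coef_cof hd hs hLam hM0 S hSneg ha κ n
  have hrate : ε * Lam * rate S s ≤ 1 := by
    have r1 := rate_le S hs
    calc ε * Lam * rate S s ≤ ε * Lam * Rt := mul_le_mul_of_nonneg_left r1 (by positivity)
      _ = ε * (Lam * Rt) := by ring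
      _ ≤ 1 := e4
  -- the number of steps
  set T : ℕ := ⌊t0 / κ⌋₊ with hTd
  have hT1 : (T : ℝ) * κ ≤ t0 := by
    have := Nat.floor_le (div_nonneg ht0.le hκ.le)
    rwa [← hTd, le_div_iff₀ hκ] at this
  have hT2 : t0 / 2 ≤ T * κ := by
    have := Nat.lt_floor_add_one (t0 / κ)
    rw [← hTd, div_lt_iff₀ hκ, add_mul, one_mul] at this
    have := hκε.trans e7
    linarith
  have hT0 : 0 < T := by
    rcases Nat.eq_zero_or_pos T with h0 | h0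
    · rw [h0] at hT2
      simp at hT2
      linarith only [hε, e7, hT2]
    · exact h0
  have hTε : (T : ℝ) * ε ≤ tim s K := by
    have ht := tim_eq (s := s) (ε := ε) K
    have htp : 0 < tim s K := Real.rpow_pos_of_pos two_pos _
    rw [div_eq_iff htp.ne'] at ht
    rw [ht, ← hκd, ← hq]
    calc (T : ℝ) * (κ * q * tim s K) = (T * κ) * (q * tim s K) := by ring
      _ ≤ t0 * (q * tim s K) := mul_le_mul_of_nonneg_right hT1 (by positivity)
      _ = (t0 * q) * tim s K := by ring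
      _ ≤ 1 * tim s K := mul_le_mul_of_nonneg_right ht2 htp.le
      _ = _ := one_mul _
  -- bad points
  set B : ℕ → Finset (GG d N) := fun n =>
    univ.filter (fun z => z ∈ win κ h ∧ smp κ h f n z < 1 - 1 / 64) with hBd
  have hchain : ∀ n z, 0 ≤ S.chain s ε (cof (N := N) s lam κ h (K + 3) a) n z := fun n z =>
    (kil_nonneg S hlam.le hε.le hrate hcoef (win κ h) n z).trans
      (kil_le_chain S hlam.le hε.le hrate hcoef (win κ h) n z)
  have hbad : ∀ n < T, ∑ z ∈ B n, S.chain s ε (cof (N := N) s lam κ h (K + 3) a) n z ≤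
      2 * ∑ z ∈ AA (N := N) κ h tb xb vb α ξ β n,
        cv q0 (S.chain s ε (cof (N := N) s lam κ h (K + 3) a) n) z := by
    intro n hn
    refine noise_markov (R := M / ε) (by positivity) hCs q0 hq0nn hq0s hq0m _ (hchain n) _ _ ?_
    intro z hz w hw
    obtain ⟨hzw, hzf⟩ := (Finset.mem_filter.1 hz).2
    obtain ⟨hzwQ, hlt⟩ := shift_cov hκ hhp hε hM hCs hb hκε hKb hK4 hN4 hN5 huc hT1 ht1 hn hzw hzf hw
    obtain ⟨i, hi⟩ := hcov _ hzwQ hlt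
    exact mem_AA.2 ⟨i, hi⟩
  have hcount := count_total (N := N) hκ hhp tb xb vb (hκε.trans e5)
    ((mul_le_of_le_one_right hκ.le hh1).trans (hκε.trans e6)) hKβ T
  have hcount2 : ∑ n ∈ range T, ((AA (N := N) κ h tb xb vb α ξ β n).card : ℝ) ≤
      2 ^ (2 * d + 1) * (π / Q) / (κ * h ^ d * (κ * h) ^ d) := by
    refine hcount.trans ?_
    gcongr
  have hocc2 := hocc (Th d (K + 3)) S (fun n => cof (N := N) s lam κ h (K + 3) a n) hcoef T hTε
    (fun n => AA (N := N) κ h tb xb vb α ξ β n) π hπ0 hπ1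
    (det_hyp hM hε hCs K _ (π / Q) π hπ0 hcount2 (by rw [div_mul_cancel₀ _ hQ0.ne']))
  rw [tim_eq, ← hκd, ← hq, hlogπ] at hocc2
  have hsum : ∑ n ∈ range T, ∑ z ∈ B n, S.chain s ε (cof (N := N) s lam κ h (K + 3) a) n z ≤
      T * (1 / 16) := by
    have g1 : ∑ n ∈ range T, ∑ z ∈ B n, S.chain s ε (cof (N := N) s lam κ h (K + 3) a) n z ≤
        2 * ∑ n ∈ range T, ∑ z ∈ AA (N := N) κ h tb xb vb α ξ β n,
          cv q0 (S.chain s ε (cof (N := N) s lam κ h (K + 3) a) n) z := by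
      rw [Finset.mul_sum]
      exact Finset.sum_le_sum (fun n hn => hbad n (Finset.mem_range.1 hn))
    refine g1.trans ?_
    exact occ_num ht0 hq0 hκ hLg hLg0 rfl hT2 hocc2
  have hfin := chain_part (N := N) (J := K + 3) (κ := κ) (h := h) (k := k) (η' := 1 / 16 + 1 / 64)
    hlam.le hε.le S hrate (fun n => cof (N := N) s lam κ h (K + 3) a n) hcoef f hnn hk
    (by norm_num) hκ T hT0 t0 hT1 ht4 ?_ C hC ht3 ?_ (1 / 64) (by norm_num) B ?_ hsum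
  · exact last_num exp_num ht0 ht1 (hnn 0 0 0) hfin
  · intro n hn z hz
    have hnκ : (n : ℝ) * κ ≤ 1 / 2 := by
      have : (n : ℝ) * κ ≤ T * κ := mul_le_mul_of_nonneg_right (by exact_mod_cast hn.le) hκ.le
      linarith only [ht1, hT1, this]
    have hnκ0 : 0 ≤ (n : ℝ) * κ := by positivity
    rw [gen_smp (J := K + 3) hd hκ hhp hN3 S hSm hSpi a f n z hz]
    exact hone ε hε e1 _ _ _ (by linarith only [hnκ]) (by linarith only [hnκ0]) hz.1 hz.2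
  · intro n z hz
    exact hPsi K N ε c0 hε e3 S hSpi hN3 hrate _ (hcoef n) z hz
  · intro n z hz hlt
    exact Finset.mem_filter.2 ⟨Finset.mem_univ _, hz, hlt⟩

end KD.II
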